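import Pool.Agent.J6H86.SB.StepC

/-!
# MP_97e538_al : cohomology of the braid group in degrees 0 and 1 with coefficients in the symmetric
powers of the first homology of the closed surface of genus `g`

`Braid (2g+1)` is the Artin braid group `B_{2g+2}` (generators `σ_0, …, σ_{2g}`), `VV g` is
`H_1(Σ_g; ℝ)` with the first `2g` curves of the chain as basis, `alpha g` is the action by the
transvections along the curves of the chain, and `symRep g k` the induced action on the `k`-th
symmetric power (homogeneous polynomials of degree `k` in the basis). For every `g ≥ 1`: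
`H⁰` vanishes for all `k ≥ 1`; `H¹` vanishes for all odd `k ≥ 3`; `H¹` is one-dimensional for `k = 1`.
For every `g ≥ 2` also: `H¹` vanishes for all `k ≥ 2`. So for `g ≥ 2` the degrees 0 and 1 are
determined for every `k ≥ 1`.
-/

set_option autoImplicit false

namespace Pool.Agent.Results.MP_97e538_al.DegreesZeroAndOne

open Pool.Agent.J6H86.SB

/-- **Degrees 0 and 1.** -/
theorem result (g : ℕ) (hg : 1 ≤ g) :
    (∀ k, 1 ≤ k → Subsingleton (groupCohomology (Rep.of (symRep g k)) 0)) ∧
    Module.finrank ℝ (groupCohomology (Rep.of (symRep g 1)) 1) = 1 ∧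
    (2 ≤ g → ∀ k, 2 ≤ k → Subsingleton (groupCohomology (Rep.of (symRep g k)) 1)) ∧
    (∀ k, Odd k → 3 ≤ k → Subsingleton (groupCohomology (Rep.of (symRep g k)) 1)) := by
  refine ⟨fun _ hk => h0 hg hk, h1_one hg, fun hg2 k hk2 => ?_, fun _ hk hk3 => h1_odd hg hk hk3⟩
  rcases Nat.even_or_odd k with h | h
  · exact h1_even hg2 h hk2
  · exact h1_odd hg h (by obtain ⟨r, hr⟩ := h; omega)

end Pool.Agent.Results.MP_97e538_al.DegreesZeroAndOne
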